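import Mathlib

/-!
# Prime chains `q_{i+1} ≡ 1 (mod q_i)`: growth
-/

set_option autoImplicit false

namespace Pool.Agent.Helper808.Chain


namespace JCunn

theorem cunningham (q : ℕ → ℕ) (hp : ∀ i, (q i).Prime) (hm : StrictMono q) (N : ℕ) :
    ¬ (∀ i, N ≤ i → q (i + 1) = 2 * q i + 1) := by
  intro h
  obtain ⟨p, hpdef⟩ : ∃ p, p = q (N + 1) := ⟨_, rfl⟩
  have hpp : p.Prime := hpdef ▸ hp (N + 1)
  have hpe : p = 2 * q N + 1 := by rw [hpdef]; exact h N le_rfl
  have hind : ∀ j, q (N + 1 + j) + 1 = 2 ^ j * (p + 1) := by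
    intro j
    induction j with
    | zero => simp [hpdef]
    | succ j ih =>
      have h1 := h (N + 1 + j) (by omega)
      rw [show N + 1 + (j + 1) = N + 1 + j + 1 by omega, h1, pow_succ]
      calc 2 * q (N + 1 + j) + 1 + 1 = 2 * (q (N + 1 + j) + 1) := by ring
        _ = 2 * (2 ^ j * (p + 1)) := by rw [ih]
        _ = 2 ^ j * 2 * (p + 1) := by ring
  have hcop : Nat.Coprime 2 p := by
    rw [Nat.coprime_two_left, hpe]
    exact ⟨q N, rfl⟩
  have h1 : 2 ^ (p - 1) ≡ 1 [MOD p] := by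
    have := Nat.ModEq.pow_totient hcop
    rwa [Nat.totient_prime hpp] at this
  have h2 := hind (p - 1)
  have h3 : q (N + 1 + (p - 1)) + 1 ≡ 0 + 1 [MOD p] := by
    rw [h2]
    have h4 : p + 1 ≡ 0 + 1 [MOD p] := by
      apply Nat.ModEq.add_right
      exact (Nat.modEq_zero_iff_dvd).mpr dvd_rfl
    simpa using h1.mul h4
  have h5 : q (N + 1 + (p - 1)) ≡ 0 [MOD p] := Nat.ModEq.add_right_cancel' 1 h3
  have h6 : p ∣ q (N + 1 + (p - 1)) := (Nat.modEq_zero_iff_dvd).mp h5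
  have h7 : p = q (N + 1 + (p - 1)) := (Nat.prime_dvd_prime_iff_eq hpp (hp _)).mp h6
  have h8 : q (N + 1) < q (N + 1 + (p - 1)) := by
    apply hm
    have := hpp.two_le
    omega
  rw [← h7, ← hpdef] at h8
  exact lt_irrefl _ h8

end JCunn


namespace JStep

theorem step (q : ℕ → ℕ) (hp : ∀ i, (q i).Prime) (hm : StrictMono q)
    (hmod : ∀ i, q (i + 1) % q i = 1) (i : ℕ) (hi : 1 ≤ i) :
    ∃ m : ℕ, 1 ≤ m ∧ q (i + 1) = 2 * m * q i + 1 := by
  have h0 : 2 ≤ q 0 := (hp 0).two_le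
  have h1 : q 0 < q i := hm (by omega)
  have h2 : q i < q (i + 1) := hm (by omega)
  have hoi : q i % 2 = 1 := by
    rcases (hp i).eq_two_or_odd with h | h
    · omega
    · exact h
  have hoi1 : q (i + 1) % 2 = 1 := by
    rcases (hp (i + 1)).eq_two_or_odd with h | h
    · omega
    · exact h
  have hdm := Nat.div_add_mod (q (i + 1)) (q i)
  rw [hmod i] at hdm
  set t := q (i + 1) / q i with ht
  have ht1 : 1 ≤ t := by
    rcases Nat.eq_zero_or_pos t with h | h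
    · rw [h] at hdm; omega
    · exact h
  have hte : Even t := by
    by_contra hne
    have hto : Odd t := Nat.not_even_iff_odd.mp hne
    have hqo : Odd (q i) := Nat.odd_iff.mpr hoi
    have hpo : Odd (q i * t) := hqo.mul hto
    have h3 : (q i * t) % 2 = 1 := Nat.odd_iff.mp hpo
    omega
  obtain ⟨m, hm'⟩ := hte
  refine ⟨m, by omega, ?_⟩
  rw [← hdm, hm']
  ring

end JStep


namespace JTends

theorem tends
    (cunningham : ∀ (q : ℕ → ℕ), (∀ i, (q i).Prime) → StrictMono q →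
      ∀ N : ℕ, ¬ (∀ i, N ≤ i → q (i + 1) = 2 * q i + 1))
    (step : ∀ (q : ℕ → ℕ), (∀ i, (q i).Prime) → StrictMono q → (∀ i, q (i + 1) % q i = 1) →
      ∀ i, 1 ≤ i → ∃ m : ℕ, 1 ≤ m ∧ q (i + 1) = 2 * m * q i + 1)
    (q : ℕ → ℕ) (hp : ∀ i, (q i).Prime) (hm : StrictMono q)
    (hmod : ∀ i, q (i + 1) % q i = 1) :
    Filter.Tendsto (fun k : ℕ => (q k : ℝ) / 2 ^ k) Filter.atTop Filter.atTop := by
  have h2 : ∀ i, 1 ≤ i → 2 * q i ≤ q (i + 1) := by
    intro i hi
    obtain ⟨m, hm1, hq⟩ := step q hp hm hmod i hi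
    rw [hq]
    nlinarith [Nat.zero_le (q i)]
  have h4 : ∀ N, ∃ i, N ≤ i ∧ 1 ≤ i ∧ 4 * q i ≤ q (i + 1) := by
    intro N
    have h := cunningham q hp hm (max N 1)
    push Not at h
    obtain ⟨i, hi, hne⟩ := h
    have hi1 : 1 ≤ i := (le_max_right N 1).trans hi
    refine ⟨i, (le_max_left N 1).trans hi, hi1, ?_⟩
    obtain ⟨m, hm1, hq⟩ := step q hp hm hmod i hi1
    have hm2 : 2 ≤ m := by
      rcases Nat.lt_or_ge 1 m with h' | h'
      · exact h'
      · have : m = 1 := le_antisymm h' hm1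
        rw [this] at hq
        exact absurd (by rw [hq]) hne
    rw [hq]
    nlinarith [Nat.zero_le (q i)]
  have r2 : ∀ i, 1 ≤ i → (q i : ℝ) / 2 ^ i ≤ (q (i + 1) : ℝ) / 2 ^ (i + 1) := by
    intro i hi
    have h : (2 : ℝ) * q i ≤ q (i + 1) := by exact_mod_cast h2 i hi
    rw [div_le_div_iff₀ (by positivity) (by positivity), pow_succ]
    have hp2 : (0:ℝ) < 2 ^ i := by positivity
    nlinarith
  have r4 : ∀ i, 4 * q i ≤ q (i + 1) → 2 * ((q i : ℝ) / 2 ^ i) ≤ (q (i + 1) : ℝ) / 2 ^ (i + 1) := by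
    intro i hi
    have h : (4 : ℝ) * q i ≤ q (i + 1) := by exact_mod_cast hi
    rw [← mul_div_assoc, div_le_div_iff₀ (by positivity) (by positivity), pow_succ]
    have hp2 : (0:ℝ) < 2 ^ i := by positivity
    nlinarith
  have mono : ∀ k l, 1 ≤ k → k ≤ l → (q k : ℝ) / 2 ^ k ≤ (q l : ℝ) / 2 ^ l := by
    intro k l hk hkl
    induction l, hkl using Nat.le_induction with
    | base => exact le_rfl
    | succ l hl ih => exact ih.trans (r2 l (hk.trans hl))
  have r1 : (1:ℝ) ≤ (q 1 : ℝ) / 2 ^ 1 := by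
    have : 2 ≤ q 1 := (hp 1).two_le
    have h' : (2:ℝ) ≤ q 1 := by exact_mod_cast this
    rw [pow_one, le_div_iff₀ (by norm_num)]
    linarith
  have key : ∀ n : ℕ, ∃ K, 1 ≤ K ∧ ∀ k, K ≤ k → (2:ℝ) ^ n ≤ (q k : ℝ) / 2 ^ k := by
    intro n
    induction n with
    | zero =>
      refine ⟨1, le_rfl, fun k hk => ?_⟩
      rw [pow_zero]
      exact r1.trans (mono 1 k le_rfl hk)
    | succ n ih =>
      obtain ⟨K, hK, hKk⟩ := ih
      obtain ⟨i, hiK, hi1, hi4⟩ := h4 K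
      refine ⟨i + 1, by omega, fun k hk => ?_⟩
      have a1 := hKk i hiK
      have a2 := r4 i hi4
      have a3 := mono (i + 1) k (by omega) hk
      rw [pow_succ]
      linarith
  rw [Filter.tendsto_atTop]
  intro b
  obtain ⟨n, hn⟩ := pow_unbounded_of_one_lt b (one_lt_two : (1:ℝ) < 2)
  obtain ⟨K, hK, hKk⟩ := key n
  filter_upwards [Filter.eventually_ge_atTop K] with k hk
  exact hn.le.trans (hKk k hk)

end JTends


namespace JSix

theorem six
    (cunningham : ∀ (q : ℕ → ℕ), (∀ i, (q i).Prime) → StrictMono q →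
      ∀ N : ℕ, ¬ (∀ i, N ≤ i → q (i + 1) = 2 * q i + 1))
    (step : ∀ (q : ℕ → ℕ), (∀ i, (q i).Prime) → StrictMono q → (∀ i, q (i + 1) % q i = 1) →
      ∀ i, 1 ≤ i → ∃ m : ℕ, 1 ≤ m ∧ q (i + 1) = 2 * m * q i + 1)
    (q : ℕ → ℕ) (hp : ∀ i, (q i).Prime) (hm : StrictMono q)
    (hmod : ∀ i, q (i + 1) % q i = 1) (N : ℕ) :
    ∃ i, N ≤ i ∧ 6 * q i + 1 ≤ q (i + 1) := by
  by_contra hcon
  push Not at hcon
  have h3 : ∀ i, 2 ≤ i → q i % 3 ≠ 0 := by
    intro i hi h
    have h01 : q 0 < q 1 := hm (by norm_num)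
    have h12 : q 1 < q 2 := hm (by norm_num)
    have h2i : q 2 ≤ q i := hm.monotone hi
    have h0 := (hp 0).two_le
    have hd : 3 ∣ q i := Nat.dvd_of_mod_eq_zero h
    have := (Nat.prime_dvd_prime_iff_eq Nat.prime_three (hp i)).1 hd
    omega
  have key : ∀ i, max N 2 ≤ i → (q i % 3 = 2 ∧ q (i + 1) = 2 * q i + 1 ∨ q i % 3 = 1) ∧
      q (i + 1) % 3 = 2 := by
    intro i hi
    have hN : N ≤ i := le_trans (le_max_left _ _) hi
    have h2 : 2 ≤ i := le_trans (le_max_right _ _) hi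
    obtain ⟨m, hm1, hmq⟩ := step q hp hm hmod i (by omega)
    have hlt := hcon i hN
    have hq0 : 0 < q i := (hp i).pos
    have hm3 : m < 3 := by
      by_contra hge
      push Not at hge
      have : 6 * q i ≤ 2 * m * q i := Nat.mul_le_mul_right _ (by omega)
      omega
    have a1 := h3 i h2
    have a2 := h3 (i + 1) (by omega)
    have hm12 : m = 1 ∨ m = 2 := by omega
    rcases hm12 with rfl | rfl
    · omega
    · omega
  refine cunningham q hp hm (max N 2 + 1) (fun i hi => ?_)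
  have b1 := (key (i - 1) (by omega)).2
  have e : i - 1 + 1 = i := by omega
  rw [e] at b1
  have b2 := (key i (by omega)).1
  omega

end JSix


theorem tends (q : ℕ → ℕ) (hp : ∀ i, (q i).Prime) (hm : StrictMono q)
    (hmod : ∀ i, q (i + 1) % q i = 1) :
    Filter.Tendsto (fun k : ℕ => (q k : ℝ) / 2 ^ k) Filter.atTop Filter.atTop :=
  JTends.tends (fun q hp hm N => JCunn.cunningham q hp hm N)
    (fun q hp hm hmod i hi => JStep.step q hp hm hmod i hi) q hp hm hmod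

theorem six (q : ℕ → ℕ) (hp : ∀ i, (q i).Prime) (hm : StrictMono q)
    (hmod : ∀ i, q (i + 1) % q i = 1) (N : ℕ) :
    ∃ i, N ≤ i ∧ 6 * q i + 1 ≤ q (i + 1) :=
  JSix.six (fun q hp hm N => JCunn.cunningham q hp hm N)
    (fun q hp hm hmod i hi => JStep.step q hp hm hmod i hi) q hp hm hmod N

end Pool.Agent.Helper808.Chain
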